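import Pool.Agent.helper70.BND.SpecH

set_option autoImplicit false

open scoped Topology
open Finset

namespace Pool.Agent.BND.EX

theorem BPT_kp (M : ℕ → ℕ → ℕ) (u : List ℕ) (v x : ℕ) (hx : x ∈ u) : M x v ≤ kp M u v := by
  unfold kp
  exact List.le_sum_of_mem (List.mem_map.2 ⟨x, hx, rfl⟩)

theorem BPT (hPH1 : PH1_stmt) (hCON : CON_stmt) (hVWC : VWC_stmt) (hPTR : PTR_stmt) (hPSY : PSY_stmt) (hPRF : PRF_stmt) : BPT_stmt := by
  intro A J M u u' Bb hG hJ hu hu' hM hB hN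
  have hl : 1 ≤ u.length := List.length_pos_iff.2 hu
  have hl' : 1 ≤ u'.length := List.length_pos_iff.2 hu'
  have hMu : ∀ x ∈ u, ∀ v, v < A.n → 3 * A.cs + (D0 A.l J).length + 4 ≤ M x v := fun x hx v hv =>
    hM x (List.mem_append_left _ hx) v hv
  have hMu' : ∀ x ∈ u', ∀ v, v < A.n → 3 * A.cs + (D0 A.l J).length + 4 ≤ M x v := fun x hx v hv =>
    hM x (List.mem_append_right _ hx) v hv
  have h1 : u.length * hw A.l.h (Dl A.l.N J) ≤ Bb := le_trans (Nat.mul_le_mul_right _ (by omega)) hB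
  have h2 : u'.length * hw A.l.h (Dl A.l.N J) ≤ Bb := le_trans (Nat.mul_le_mul_right _ (by omega)) hB
  have h3 : 2 * hw A.l.h (Dl A.l.N J) ≤ Bb := le_trans (Nat.mul_le_mul_right _ (by omega)) hB
  have p1 := hPH1 A J M u (kp M u) (kp M u') (2 * A.cs) Bb hG hJ hu
    (fun x hx v hv => le_trans (by omega) (hMu x hx v hv)) (Or.inl fun v _ => rfl) h1
  have p3 := hPH1 A J M u' (kp M u) (kp M u') (2 * A.cs) Bb hG hJ hu'
    (fun x hx v hv => le_trans (by omega) (hMu' x hx v hv)) (Or.inr fun v _ => rfl) h2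
  obtain ⟨x, hx⟩ := List.exists_mem_of_ne_nil u hu
  obtain ⟨x', hx'⟩ := List.exists_mem_of_ne_nil u' hu'
  obtain ⟨-, hV⟩ := hVWC A J hG
  obtain ⟨-, hV2, -, hV4⟩ := hV M
  have f1 := (hV4 u hu (fun x hx v hv => le_trans (by omega) (hMu x hx v hv))).1
  have f2 := (hV4 u' hu' (fun x hx v hv => le_trans (by omega) (hMu' x hx v hv))).1
  obtain ⟨d, p2⟩ := hCON A J (kp M u) (kp M u') Bb (ct A.l J M u) (ct A.l J M u') hG (hV2 u) (hV2 u') h3
    (fun v hv => ⟨f1 v hv, f2 v hv, le_trans (hMu x hx v hv) (BPT_kp M u v x hx),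
      le_trans (hMu' x' hx' v hv) (BPT_kp M u' v x' hx')⟩) hN
  have q1 := hPTR _ _ _ _ _ _ _ _ _ p1 p2
  have q2 := hPTR _ _ _ _ _ _ _ _ _ q1 (hPSY _ _ _ _ _ _ p3)
  exact ⟨_, (hPRF _ _).2 _ _ _ _ _ _ q2 (fun e _ => rfl)
    (fun a ha => Or.inl (Or.inl ha))⟩

end Pool.Agent.BND.EX
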